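import Pool.Agent.W550.LG2.Stm

set_option autoImplicit false

open Topology Filter Set Module
open scoped ContDiff InnerProductSpace

namespace Pool.Agent.W3.LG2

open Pool.Agent.W617.LG Pool.Agent.W550.LG2

/-- a joint eigenvector in an invariant subspace -/
theorem exists_joint {V ι : Type*} [NormedAddCommGroup V] [InnerProductSpace ℝ V]
    [FiniteDimensional ℝ V] (A : ι → V →ₗ[ℝ] V) (hA : ∀ i, (A i).IsSymmetric)
    (hc : ∀ i j v, A i (A j v) = A j (A i v)) (T : Submodule ℝ V)
    (hT : ∀ i, ∀ v ∈ T, A i v ∈ T) (hne : T ≠ ⊥) :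
    ∃ e ∈ T, ‖e‖ = 1 ∧ ∀ i, ∃ χ : ℝ, A i e = χ • e := by
  let B : ι → T →ₗ[ℝ] T := fun i => (A i).restrict (hT i)
  have hB : ∀ i, (B i).IsSymmetric := fun i => (hA i).restrict_invariant (hT i)
  have hcom : Pairwise (Function.onFun Commute B) := by
    intro i j _
    show B i * B j = B j * B i
    ext v
    exact hc i j v
  have h1 := LinearMap.IsSymmetric.iSup_iInf_eq_top_of_commute hB hcom
  have h2 : ∃ χ : ι → ℝ, (⨅ i, Module.End.eigenspace (B i) (χ i)) ≠ ⊥ := by
    by_contra hcon
    push Not at hcon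
    have h3 : (⨆ χ : ι → ℝ, ⨅ i, Module.End.eigenspace (B i) (χ i)) = ⊥ := by
      rw [iSup_eq_bot]
      exact hcon
    rw [h3] at h1
    apply hne
    rw [eq_bot_iff]
    intro v hv
    have h4 : (⟨v, hv⟩ : T) ∈ (⊤ : Submodule ℝ T) := Submodule.mem_top
    rw [← h1, Submodule.mem_bot] at h4
    have h5 : v = 0 := congrArg Subtype.val h4
    rw [h5]
    exact Submodule.zero_mem _
  obtain ⟨χ, hχ⟩ := h2
  obtain ⟨v, hv, hv0⟩ := Submodule.exists_mem_ne_zero_of_ne_bot hχ
  have hv0' : (v : V) ≠ 0 := fun h => hv0 (Subtype.ext h)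
  have hn : ‖(v : V)‖ ≠ 0 := norm_ne_zero_iff.mpr hv0'
  refine ⟨‖(v : V)‖⁻¹ • (v : V), T.smul_mem _ v.2, ?_, ?_⟩
  · rw [norm_smul, norm_inv, norm_norm, inv_mul_cancel₀ hn]
  · intro i
    refine ⟨χ i, ?_⟩
    have h6 := (Submodule.mem_iInf _).mp hv i
    rw [Module.End.mem_eigenspace_iff] at h6
    have h7 : A i (v : V) = χ i • (v : V) := congrArg Subtype.val h6
    rw [map_smul, h7, smul_comm]

/-- adapted orthonormal families of an invariant subspace -/
theorem exists_frame {V : Type*} [NormedAddCommGroup V] [InnerProductSpace ℝ V]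
    [FiniteDimensional ℝ V] (c : V → V →ₗ[ℝ] V) (h12 : ∀ a b, c a b = c b a)
    (hs : ∀ a b d, ⟪c a b, d⟫_ℝ = ⟪c a d, b⟫_ℝ)
    (hc : ∀ a b d, c a (c b d) = c b (c a d)) :
    ∀ (n : ℕ) (T : Submodule ℝ V), finrank ℝ T = n → (∀ a, ∀ v ∈ T, c a v ∈ T) →
      ∃ e : Fin n → V, (∀ i, e i ∈ T) ∧ (∀ i j, ⟪e i, e j⟫_ℝ = if i = j then 1 else 0) ∧
        ∀ i j, i ≠ j → c (e i) (e j) = 0 := by
  have hsym : ∀ a, (c a).IsSymmetric := by
    intro a v w
    rw [hs a v w, real_inner_comm]
  intro n
  induction n with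
  | zero =>
    intro T _ _
    exact ⟨fun i => i.elim0, fun i => i.elim0, fun i => i.elim0, fun i => i.elim0⟩
  | succ n ih =>
    intro T hT hinv
    have hne : T ≠ ⊥ := by
      intro h
      rw [h, finrank_bot] at hT
      omega
    obtain ⟨e0, he0, hn0, hχ⟩ := exists_joint c hsym (fun i j v => hc i j v) T hinv hne
    have hspan : Submodule.span ℝ {e0} ≤ T := by
      rw [Submodule.span_singleton_le_iff_mem]
      exact he0
    have he00 : e0 ≠ 0 := by
      intro h
      rw [h, norm_zero] at hn0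
      exact zero_ne_one hn0
    have hfr := Submodule.finrank_add_inf_finrank_orthogonal hspan
    rw [finrank_span_singleton he00, hT] at hfr
    have hfr' : finrank ℝ ((Submodule.span ℝ {e0})ᗮ ⊓ T : Submodule ℝ V) = n := by omega
    have hinv' : ∀ a, ∀ v ∈ ((Submodule.span ℝ {e0})ᗮ ⊓ T : Submodule ℝ V),
        c a v ∈ ((Submodule.span ℝ {e0})ᗮ ⊓ T : Submodule ℝ V) := by
      intro a v hv
      rw [Submodule.mem_inf] at hv ⊢
      refine ⟨?_, hinv a v hv.2⟩
      rw [Submodule.mem_orthogonal_singleton_iff_inner_right] at hv ⊢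
      obtain ⟨χ, hχa⟩ := hχ a
      rw [real_inner_comm, hs, hχa, inner_smul_left, hv.1, mul_zero]
    obtain ⟨e, he, hon, hd⟩ := ih _ hfr' hinv'
    have hkey : ∀ v ∈ ((Submodule.span ℝ {e0})ᗮ ⊓ T : Submodule ℝ V), c e0 v = 0 := by
      intro v hv
      have h1 := hinv' e0 v hv
      rw [Submodule.mem_inf, Submodule.mem_orthogonal_singleton_iff_inner_right] at h1
      obtain ⟨χ, hχv⟩ := hχ v
      have h2 : c e0 v = χ • e0 := by rw [h12, hχv]
      have h3 := h1.1
      rw [h2, inner_smul_right, real_inner_self_eq_norm_sq, hn0] at h3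
      have h4 : χ = 0 := by simpa using h3
      rw [h2, h4, zero_smul]
    have horth : ∀ i, ⟪e0, e i⟫_ℝ = 0 := by
      intro i
      have h1 := he i
      rw [Submodule.mem_inf, Submodule.mem_orthogonal_singleton_iff_inner_right] at h1
      exact h1.1
    refine ⟨Fin.cons e0 e, ?_, ?_, ?_⟩
    · intro i
      refine Fin.cases ?_ (fun i => ?_) i
      · exact he0
      · exact (Submodule.mem_inf.mp (he i)).2
    · intro i j
      refine Fin.cases ?_ (fun i => ?_) i
      · refine Fin.cases ?_ (fun j => ?_) j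
        · simp [hn0]
        · rw [Fin.cons_zero, Fin.cons_succ, horth, if_neg]
          exact (Fin.succ_ne_zero j).symm
      · refine Fin.cases ?_ (fun j => ?_) j
        · rw [Fin.cons_zero, Fin.cons_succ, real_inner_comm, horth, if_neg]
          exact Fin.succ_ne_zero i
        · rw [Fin.cons_succ, Fin.cons_succ, hon]
          simp [Fin.succ_inj]
    · intro i j
      refine Fin.cases ?_ (fun i => ?_) i
      · refine Fin.cases ?_ (fun j => ?_) j
        · intro h; exact absurd rfl h
        · intro _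
          rw [Fin.cons_zero, Fin.cons_succ]
          exact hkey _ (he j)
      · refine Fin.cases ?_ (fun j => ?_) j
        · intro _
          rw [Fin.cons_zero, Fin.cons_succ, h12]
          exact hkey _ (he i)
        · intro h
          rw [Fin.cons_succ, Fin.cons_succ]
          exact hd i j (fun h' => h (by rw [h']))

theorem joint : S_JOINT := by
  intro q C τ hL x hx
  have h1 : finrank ℝ ((Submodule.span ℝ {x})ᗮ : Submodule ℝ (E q)) = q + 1 := by
    have h2 := Submodule.finrank_add_finrank_orthogonal (Submodule.span ℝ {x})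
    rw [finrank_span_singleton hx, finrank_euclideanSpace_fin] at h2
    omega
  obtain ⟨e, he, hon, hd⟩ := exists_frame (fun a => (C x a).toLinearMap)
    (fun a b => hL.comm12 x hx a b) (fun a b d => hL.symm x hx a b d)
    (fun a b d => hL.comm x hx a b d) (q + 1) _ h1 (by
      intro a v hv
      rw [Submodule.mem_orthogonal_singleton_iff_inner_right] at hv ⊢
      show ⟪x, C x a v⟫_ℝ = 0
      rw [real_inner_comm, hL.symm x hx, hL.comm12 x hx, hL.rad x hx]
      simp)
  refine ⟨e, hx, hon, fun i => ?_, hd⟩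
  have := he i
  rwa [Submodule.mem_orthogonal_singleton_iff_inner_right] at this

end Pool.Agent.W3.LG2
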